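import Pool.Agent.H265Z.CV.Tri

/-!
# Forms congruent to orthogonal matrices are dense
-/

set_option autoImplicit false

namespace Pool.Agent.H265Z.CV

open Matrix Filter Topology
open scoped ComplexOrder

variable {n : ℕ}

/-- complexification -/
noncomputable def cx : Mat n →+* Matrix (Fin n) (Fin n) ℂ := Complex.ofRealHom.mapMatrix

lemma cx_transpose (A : Mat n) : cx Aᵀ = (cx A)ᴴ := by
  ext i j
  simp [cx]

lemma root_iff (A : Mat n) (z : ℂ) :
    (A.map Complex.ofReal).charpoly.IsRoot z ↔ ∃ v ≠ 0, cx A *ᵥ v = z • v := by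
  rw [Polynomial.IsRoot.def, eval_charpoly, ← exists_mulVec_eq_zero_iff]
  refine exists_congr fun v => and_congr_right fun _ => ?_
  rw [sub_mulVec, sub_eq_zero, eq_comm, scalar_apply, ← smul_one_eq_diagonal, smul_mulVec,
    one_mulVec]
  rfl

/-- all eigenvalues of the monodromy have modulus one -/
def Circ (S : Mat n) : Prop :=
  ∀ z : ℂ, ((S⁻¹ * Sᵀ).map Complex.ofReal).charpoly.IsRoot z → ‖z‖ = 1

lemma form_eq (A B : Matrix (Fin n) (Fin n) ℂ) (w : Fin n → ℂ) :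
    star w ⬝ᵥ (Aᴴ * B) *ᵥ w = star (A *ᵥ w) ⬝ᵥ B *ᵥ w := by
  rw [← mulVec_mulVec, dotProduct_mulVec, star_mulVec]

lemma Wit.circ {S G : Mat n} (h : Wit S G) : Circ S := by
  intro z hz
  obtain ⟨v, hv, hz⟩ := (root_iff _ z).1 hz
  have hG := pd_det h.1
  have hS : IsUnit S.det := by
    have := congrArg det h.2
    rw [det_mul] at this
    exact isUnit_of_mul_isUnit_right (this ▸ hG)
  have hS' : IsUnit Sᵀ.det := by simpa using hS
  have e1 : G * S⁻¹ = Sᵀ * G⁻¹ := by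
    conv_lhs => rw [← h.2]
    rw [mul_assoc, mul_nonsing_inv _ hS, mul_one]
  have e2 : S * G⁻¹ * Sᵀ = G := by
    have : G⁻¹ * S * (G⁻¹ * Sᵀ) = 1 := by
      rw [← mul_assoc, mul_eq_one_comm, ← mul_assoc, ← mul_assoc, h.2, mul_nonsing_inv _ hG]
    calc _ = G * G⁻¹ * S * (G⁻¹ * Sᵀ) := by rw [mul_nonsing_inv _ hG, one_mul, mul_assoc]
      _ = G * (G⁻¹ * S * (G⁻¹ * Sᵀ)) := by simp only [mul_assoc]
      _ = G := by rw [this, mul_one]
  have e3 : (S⁻¹ * Sᵀ)ᵀ * (G * (S⁻¹ * Sᵀ)) = G := by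
    calc _ = S * (Sᵀ⁻¹ * Sᵀ) * G⁻¹ * Sᵀ := by
          rw [← mul_assoc G, e1, transpose_mul, transpose_transpose, transpose_nonsing_inv]
          simp only [mul_assoc]
      _ = G := by rw [nonsing_inv_mul _ hS', mul_one, e2]
  obtain ⟨a, ha, hGa⟩ : ∃ a : Mat n, a.det ≠ 0 ∧ aᵀ * a = G := by
    refine ⟨gm G⁻¹, by simpa using (good_of_posDef h.1.inv).upPos_gm.det_ne, ?_⟩
    have := chol' h.1.inv
    calc _ = (gm G⁻¹)ᵀ * gm G⁻¹ * (G⁻¹ * G) := by rw [nonsing_inv_mul _ hG, mul_one]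
      _ = G := by rw [← mul_assoc, this, one_mul]
  have hq : star v ⬝ᵥ cx G *ᵥ v ≠ 0 := by
    rw [← hGa, map_mul, cx_transpose, form_eq, Ne, dotProduct_star_self_eq_zero]
    intro h0
    have : (cx a).det = 0 := exists_mulVec_eq_zero_iff.1 ⟨v, hv, h0⟩
    rw [cx, ← RingHom.map_det] at this
    exact ha (by simpa using this)
  have e4 := form_eq (cx (S⁻¹ * Sᵀ)) (cx (G * (S⁻¹ * Sᵀ))) v
  rw [← cx_transpose, ← map_mul, e3, map_mul cx G, ← mulVec_mulVec, hz, mulVec_smul, star_smul,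
    smul_dotProduct, dotProduct_smul, smul_smul, smul_eq_mul] at e4
  have e5 : star z * z = 1 := mul_right_cancel₀ hq (by rw [← e4, one_mul])
  have e6 := congrArg norm e5
  rw [norm_mul, norm_star, norm_one] at e6
  nlinarith [norm_nonneg z]

lemma limit_zero {S Y : Mat n} (hS : IsUnit S.det) (hc : Circ S) (hY : Yᵀ = Y)
    (h1 : Y * S * (Y * S) = 0)
    (h2 : Y * S * (Sᵀ⁻¹ * (S - Y * S)) = Sᵀ⁻¹ * (S - Y * S) * (Y * S))
    (h3 : (Sᵀ⁻¹ * (S - Y * S))ᵀ * (Sᵀ * (Y * S * (Sᵀ⁻¹ * (S - Y * S)))) =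
      Sᵀ * (Y * S) - (Y * S)ᵀ * (Y * S)) : Y = 0 := by
  have hS' : IsUnit Sᵀ.det := by simpa using hS
  set D := Sᵀ⁻¹ * (S - Y * S) with hD
  set E := Y * S with hE
  have hsym : (Sᵀ * E)ᵀ = Sᵀ * E := by simp [hE, transpose_mul, hY, mul_assoc]
  suffices E = 0 by
    rw [← mul_one Y, ← mul_nonsing_inv _ hS, ← mul_assoc, ← hE, this, zero_mul]
  by_contra hE0
  let K := LinearMap.range (toLin' (cx E))
  have hK : ∀ v ∈ K, toLin' (cx D) v ∈ K := by
    rintro _ ⟨w, rfl⟩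
    exact ⟨cx D *ᵥ w, by simp only [toLin'_apply, mulVec_mulVec, ← map_mul, h2]⟩
  haveI : Nontrivial K := Submodule.nontrivial_iff_ne_bot.2 fun h0 => hE0 (by
    rw [LinearMap.range_eq_bot, LinearEquiv.map_eq_zero_iff] at h0
    ext i j
    simpa [cx] using congrFun (congrFun h0 i) j)
  obtain ⟨z, hz⟩ := Module.End.exists_eigenvalue ((toLin' (cx D)).restrict hK)
  obtain ⟨⟨_, w, rfl⟩, hv⟩ := hz.exists_hasEigenvector
  have hv0 : cx E *ᵥ w ≠ 0 := fun h => hv.2 (Subtype.ext h)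
  have hv1 : cx D *ᵥ cx E *ᵥ w = z • cx E *ᵥ w := congrArg Subtype.val hv.apply_eq_smul
  have e1 : S⁻¹ * Sᵀ * (D * E) = E := by
    calc _ = S⁻¹ * (Sᵀ * Sᵀ⁻¹) * (S * E - E * E) := by
          simp only [hD, mul_assoc, sub_mul]
      _ = E := by
          rw [mul_nonsing_inv _ hS', h1, sub_zero, mul_one, ← mul_assoc, nonsing_inv_mul _ hS,
            one_mul]
  have e2 : z • cx (S⁻¹ * Sᵀ) *ᵥ cx E *ᵥ w = cx E *ᵥ w := by
    rw [← mulVec_smul, ← hv1]
    simp only [mulVec_mulVec, ← map_mul, e1]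
  have hz0 : z ≠ 0 := by
    rintro rfl
    exact hv0 (by rw [← e2, zero_smul])
  have hz1 : ‖z‖ = 1 := by
    have := hc z⁻¹ ((root_iff _ _).2 ⟨_, hv0, by rw [eq_inv_smul_iff₀ hz0, e2]⟩)
    simpa using this
  have hz2 : star z * z = 1 := by
    have := Complex.conj_mul' z
    rw [hz1] at this
    simpa using this
  have e3 : cx (Sᵀ * E) *ᵥ cx D *ᵥ w = z • cx (Sᵀ * E) *ᵥ w := by
    rw [mulVec_mulVec, ← map_mul, mul_assoc, h2, map_mul, map_mul cx D, map_mul cx Sᵀ,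
      ← mulVec_mulVec, ← mulVec_mulVec, hv1, mulVec_smul, mulVec_mulVec]
  have e4 : star (cx D *ᵥ w) ⬝ᵥ cx (Sᵀ * E) *ᵥ w = star z * (star w ⬝ᵥ cx (Sᵀ * E) *ᵥ w) := by
    rw [dotProduct_mulVec, ← hsym, cx_transpose, ← star_mulVec, e3, star_smul, smul_dotProduct,
      star_mulVec, ← dotProduct_mulVec, smul_eq_mul]
  have e5 := congrArg (fun A => star w ⬝ᵥ cx A *ᵥ w) h3
  rw [map_mul, cx_transpose, form_eq, ← mul_assoc, map_mul cx _ D, ← mulVec_mulVec, e3,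
    dotProduct_smul,
    e4, smul_eq_mul, ← mul_assoc, mul_comm z, hz2, one_mul, map_sub, sub_mulVec, dotProduct_sub,
    map_mul cx Eᵀ, cx_transpose, form_eq, eq_sub_iff_add_eq, add_eq_left,
    dotProduct_star_self_eq_zero] at e5
  exact hv0 e5

/-- the closed conditions -/
def Cond (S : Mat n) (t : ℝ) (V : Mat n) : Prop :=
  V.PosSemidef ∧ (1 - V * V) * (t • (1 : Mat n) + Sᵀ * (1 - V * V) * S) = t • (1 : Mat n) ∧
  (1 - V * V) * S * (Sᵀ⁻¹ * (S - (1 - V * V) * S)) =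
    Sᵀ⁻¹ * (S - (1 - V * V) * S) * ((1 - V * V) * S) ∧
  (Sᵀ⁻¹ * (S - (1 - V * V) * S))ᵀ * ((t • (1 : Mat n) + Sᵀ * (1 - V * V) * S) *
    (Sᵀ⁻¹ * (S - (1 - V * V) * S))) =
    Sᵀ * ((1 - V * V) * S) - ((1 - V * V) * S)ᵀ * ((1 - V * V) * S)

lemma isClosed_cond (S : Mat n) : IsClosed {p : ℝ × Mat n | Cond S p.1 p.2} :=
  (isClosed_psd.preimage continuous_snd).inter ((isClosed_eq (by fun_prop) (by fun_prop)).inter
    ((isClosed_eq (by fun_prop) (by fun_prop)).inter (isClosed_eq (by fun_prop) (by fun_prop))))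

lemma Cond.eq_one {S V : Mat n} (hS : IsUnit S.det) (hc : Circ S) (h : Cond S 0 V) : V = 1 := by
  obtain ⟨h0, h1, h2, h3⟩ := h
  have hY : (1 - V * V)ᵀ = 1 - V * V := by simp [transpose_mul, psd_symm h0]
  set Y := 1 - V * V with hYV
  simp only [zero_smul, zero_add] at h1 h3
  have h4 : Y * Sᵀ * Y = 0 := by
    rw [← mul_one (Y * Sᵀ * Y), ← mul_nonsing_inv _ hS, ← mul_assoc, ← zero_mul S⁻¹, ← h1]
    simp only [mul_assoc]
  have h5 : Y * S * Y = 0 := by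
    simpa [transpose_mul, hY, mul_assoc] using congrArg transpose h4
  have h6 := limit_zero hS hc hY (by rw [← mul_assoc, h5, zero_mul]) h2
    (by rw [← h3]; simp only [mul_assoc])
  have h7 : (1 - V) * (1 + V) = 0 := by
    rw [← h6, hYV]; noncomm_ring
  have h8 := mul_nonsing_inv _ (pd_det (PosDef.one.add_posSemidef h0))
  have : 1 - V = 0 := by
    have := congrArg (· * (1 + V)⁻¹) h7
    simpa only [mul_assoc, h8, mul_one, zero_mul] using this
  exact (sub_eq_zero.1 this).symm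

open scoped MatrixOrder in
lemma exists_sqrt {A Z : Mat n} (hA : A.PosSemidef) (h : Commute A Z) :
    ∃ V : Mat n, V.PosSemidef ∧ V * V = A ∧ Commute V Z :=
  ⟨CFC.sqrt A, (CFC.sqrt_nonneg A).posSemidef, CFC.sqrt_mul_sqrt_self A hA.nonneg, by
    rw [CFC.sqrt_eq_cfc]; exact h.cfc_nnreal _⟩

lemma exists_approx {S : Mat n} (hS : IsUnit S.det) {e : ℝ} (he : 0 < e) :
    ∃ V : Mat n, Cond S (e ^ 2) V ∧ (∀ i j, |V i j| ≤ 1) ∧
      (V.det ≠ 0 → ∃ G, Wit (S * V⁻¹) G) := by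
  have hS' : IsUnit Sᵀ.det := by simpa using hS
  obtain ⟨Z, hZ1, hZ2⟩ := exists_riccati (e⁻¹ • S)
  have hZ := pd_of_one_le hZ1
  have e1 := mul_nonsing_inv _ (pd_det hZ)
  have e2 := nonsing_inv_mul _ (pd_det hZ)
  have hYs := psd_symm hZ.inv.posSemidef
  have hA : (1 - Z⁻¹).PosSemidef := by
    simpa using inv_anti PosDef.one hZ one_pos (by simpa using hZ1)
  obtain ⟨V, hV, hV2, hVZ⟩ := exists_sqrt (Z := Z) hA (by
    rw [Commute, SemiconjBy, sub_mul, mul_sub, e1, e2, one_mul, mul_one])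
  have hY : 1 - V * V = Z⁻¹ := by rw [hV2, sub_sub_cancel]
  set Y := Z⁻¹ with hYZ
  have hZ3 : e ^ 2 • (1 : Mat n) + Sᵀ * Y * S = e ^ 2 • Z := by
    conv_rhs => rw [hZ2]
    simp only [transpose_smul, smul_mul_assoc, mul_smul_comm, smul_add, smul_smul]
    rw [show e ^ 2 * (e⁻¹ * e⁻¹) = 1 by field_simp, one_smul]
  have hZ4 : Sᵀ * Y * S = e ^ 2 • (Z - 1) := by rw [smul_sub, ← hZ3]; abel
  have hD : Sᵀ⁻¹ * (S - Y * S) = (e ^ 2)⁻¹ • (Y * S * (Y * S)) := by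
    have : Sᵀ * (Y * S * (Y * S)) = e ^ 2 • (S - Y * S) := by
      rw [← mul_assoc, ← mul_assoc Sᵀ, hZ4, smul_mul_assoc, sub_mul, ← mul_assoc Z, e1, one_mul,
        one_mul]
    rw [← one_mul (Y * S * (Y * S)), ← nonsing_inv_mul _ hS', mul_assoc Sᵀ⁻¹, this, mul_smul_comm,
      smul_smul, inv_mul_cancel₀ (by positivity), one_smul]
  have hE : (Y * S)ᵀ * (Z * (Y * S)) = e ^ 2 • (Z - 1) := by
    rw [← hZ4, ← mul_assoc Z, e1, one_mul, transpose_mul, hYs]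
  refine ⟨V, ⟨hV, ?_, ?_, ?_⟩, fun i j => ?_, fun hd => ⟨e • Z, hZ.smul he, ?_⟩⟩
  · rw [hY, hZ3, mul_smul_comm, e2]
  · rw [hY, hD]
    simp only [mul_smul_comm, smul_mul_assoc, mul_assoc]
  · rw [hY, hZ3, hD, ← mul_assoc Sᵀ, hZ4]
    set E := Y * S
    calc _ = ((e ^ 2)⁻¹ * (e ^ 2 * (e ^ 2)⁻¹)) • (Eᵀ * (Eᵀ * (Z * E)) * E) := by
          simp only [transpose_smul, transpose_mul, mul_smul_comm, smul_mul_assoc, mul_assoc,
            smul_smul]
      _ = Eᵀ * (Z * E) - Eᵀ * E := by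
          rw [hE, mul_smul_comm, smul_mul_assoc, smul_smul,
            show (e ^ 2)⁻¹ * (e ^ 2 * (e ^ 2)⁻¹) * e ^ 2 = 1 by field_simp, one_smul, mul_sub,
            sub_mul, mul_one, mul_assoc, ← hE]
      _ = _ := by rw [hE]
  · have h1 := congrFun (congrFun hV2 i) i
    have h2 : 0 ≤ Y i i := hZ.inv.posSemidef.diag_nonneg
    have h3 : ∀ k, V k i = V i k := fun k => congrFun (congrFun (psd_symm hV) i) k
    simp only [mul_apply, h3, Matrix.sub_apply, one_apply_eq] at h1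
    have h4 := Finset.single_le_sum (f := fun k => V i k * V i k)
      (fun k _ => mul_self_nonneg _) (Finset.mem_univ j)
    rw [← sq_le_one_iff_abs_le_one]
    nlinarith
  · have e3 := mul_nonsing_inv _ hd.isUnit
    have e4 := nonsing_inv_mul _ hd.isUnit
    have e5 : (e • Z)⁻¹ = e⁻¹ • Y := inv_eq_right_inv (by
      rw [smul_mul_assoc, mul_smul_comm, smul_smul, mul_inv_cancel₀ he.ne', one_smul, e1])
    have e6 : Z - 1 = V * Z * V := by
      rw [hVZ.eq, mul_assoc, hV2, mul_sub, mul_one, e1]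
    calc _ = e⁻¹ • (V⁻¹ * (Sᵀ * Y * S) * V⁻¹) := by
          rw [e5, transpose_mul, transpose_nonsing_inv, psd_symm hV]
          simp only [mul_smul_comm, smul_mul_assoc, mul_assoc]
      _ = (e⁻¹ * e ^ 2) • (V⁻¹ * V * Z * (V * V⁻¹)) := by
          rw [hZ4, e6]
          simp only [mul_smul_comm, smul_mul_assoc, mul_assoc, smul_smul]
      _ = e • Z := by
          rw [e3, e4, one_mul, mul_one]
          congr 1
          field_simp

theorem mem_closure_sig {S : Mat n} (h1 : Up S) (h2 : ∀ i, S i i = 1) (hc : Circ S) :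
    S ∈ closure (sig '' {G : Mat n | G.PosDef}) := by
  have hS : UpPos S := ⟨h1, fun i => by rw [h2]; exact one_pos⟩
  choose V hV1 hV2 hV3 using fun k : ℕ => exists_approx hS.det_ne.isUnit
    (e := 1 / ((k : ℝ) + 1)) Nat.one_div_pos_of_nat
  haveI : FirstCountableTopology (Mat n) :=
    inferInstanceAs (FirstCountableTopology (Fin n → Fin n → ℝ))
  obtain ⟨V0, -, φ, hφ, hlim⟩ := (isCompact_box (n := Fin n) 1).tendsto_subseq hV2
  have ht : Tendsto (fun k => (1 / ((φ k : ℝ) + 1)) ^ 2) atTop (𝓝 0) := by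
    simpa using ((tendsto_one_div_add_atTop_nhds_zero_nat (𝕜 := ℝ)).comp hφ.tendsto_atTop).pow 2
  obtain rfl : V0 = 1 := Cond.eq_one hS.det_ne.isUnit hc ((isClosed_cond S).mem_of_tendsto
    (ht.prodMk_nhds hlim) (Eventually.of_forall fun k => hV1 (φ k)))
  have hL : Tendsto (fun k => S * (V (φ k))⁻¹) atTop (𝓝 S) := by
    simpa using ((continuousAt_inv (X := (1 : Mat n)) (by simp)).tendsto.comp hlim).const_mul S
  have hT := hS.good.continuousAt_tau.tendsto.comp hL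
  rw [tau_unipotent h1 h2] at hT
  refine mem_closure_of_tendsto hT ?_
  filter_upwards [hL.eventually hS.good.eventually, hlim.eventually
    ((continuous_id.matrix_det.continuousAt (x := (1 : Mat n))).eventually_ne (y := 0) (by simp))]
    with k hk1 hk2
  obtain ⟨G, hG⟩ := hV3 (φ k) hk2
  exact hG.tau_mem hk1

theorem isConnected_T (n : ℕ) :
    IsConnected {S : Mat n | Up S ∧ (∀ i, S i i = 1) ∧ Circ S} := by
  have hsub : sig '' {G : Mat n | G.PosDef} ⊆ {S : Mat n | Up S ∧ (∀ i, S i i = 1) ∧ Circ S} := by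
    rintro _ ⟨G, hG, rfl⟩
    have := (upPos_LG hG).good
    exact ⟨this.up_tau, this.tau_diag, ((wit_LG hG).tau this).circ⟩
  exact ⟨⟨_, hsub ⟨1, PosDef.one, rfl⟩⟩, isPreconnected_sig.subset_closure hsub
    fun S hS => mem_closure_sig hS.1 hS.2.1 hS.2.2⟩

end Pool.Agent.H265Z.CV
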