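import Mathlib

/-!
# The Riccati equation `Z = 1 + Lᵀ Z⁻¹ L`
-/

set_option autoImplicit false
set_option linter.unusedSectionVars false

namespace Pool.Agent.H265Z.CV

open Matrix

variable {n : Type} [Fintype n] [DecidableEq n]

lemma psd_symm {A : Matrix n n ℝ} (h : A.PosSemidef) : Aᵀ = A := by
  simpa using h.1.eq

lemma psd_iff {A : Matrix n n ℝ} : A.PosSemidef ↔ Aᵀ = A ∧ ∀ x, 0 ≤ x ⬝ᵥ A *ᵥ x := by
  rw [posSemidef_iff_dotProduct_mulVec]
  simp [IsHermitian]

lemma isClosed_psd : IsClosed {A : Matrix n n ℝ | A.PosSemidef} := by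
  simp only [psd_iff, Set.ofPred_and, Set.ofPred_forall]
  exact (isClosed_eq (by fun_prop) continuous_id).inter
    (isClosed_iInter fun x => isClosed_le continuous_const (by fun_prop))

lemma psd_entry {A : Matrix n n ℝ} (h : A.PosSemidef) (i j : n) :
    |A i j| ≤ (A i i + A j j) / 2 := by
  have hs : A j i = A i j := congrFun (congrFun (psd_symm h) i) j
  have h1 := (psd_iff.1 h).2 (Pi.single i 1 + Pi.single j 1)
  have h2 := (psd_iff.1 h).2 (Pi.single i 1 - Pi.single j 1)
  simp only [mulVec_add, mulVec_sub, add_dotProduct, sub_dotProduct, dotProduct_add,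
    dotProduct_sub, mulVec_single_one, single_one_dotProduct, col_apply, hs] at h1 h2
  rw [abs_le]; constructor <;> linarith

lemma psd_conj {A : Matrix n n ℝ} (h : A.PosSemidef) (B : Matrix n n ℝ) :
    (Bᵀ * A * B).PosSemidef := by
  simpa using h.conjTranspose_mul_mul_same B

lemma isCompact_box (R : ℝ) : IsCompact {A : Matrix n n ℝ | ∀ i j, |A i j| ≤ R} := by
  have := isCompact_univ_pi fun _ : n => isCompact_univ_pi fun _ : n => isCompact_Icc (a := -R)
    (b := R)
  have e : {A : Matrix n n ℝ | ∀ i j, |A i j| ≤ R} =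
      Set.univ.pi fun _ : n => Set.univ.pi fun _ : n => Set.Icc (-R) R := by
    ext A
    exact ⟨fun h i _ j _ => abs_le.1 (h i j), fun h i j => abs_le.2 (h i trivial j trivial)⟩
  rw [e]
  exact this

lemma exists_bound (L : Matrix n n ℝ) :
    ∃ R : ℝ, 0 ≤ R ∧ (R • (1 : Matrix n n ℝ) - Lᵀ * L).PosSemidef := by
  refine ⟨∑ i, ∑ j, L i j ^ 2, by positivity, psd_iff.2 ⟨by simp, fun x => ?_⟩⟩
  have h1 : x ⬝ᵥ (Lᵀ * L) *ᵥ x = ∑ i, (∑ j, L i j * x j) ^ 2 := by
    rw [← mulVec_mulVec, dotProduct_mulVec, vecMul_transpose]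
    simp [dotProduct, mulVec, sq]
  have h2 : x ⬝ᵥ x = ∑ j, x j ^ 2 := by simp [dotProduct, sq]
  rw [sub_mulVec, dotProduct_sub, h1, smul_mulVec, one_mulVec, dotProduct_smul, h2, smul_eq_mul,
    Finset.sum_mul, sub_nonneg]
  exact Finset.sum_le_sum fun i _ => Finset.sum_mul_sq_le_sq_mul_sq _ _ _

lemma pd_of_one_le {X : Matrix n n ℝ} (h : (X - 1).PosSemidef) : X.PosDef := by
  simpa using PosDef.one.add_posSemidef h

lemma pd_det {X : Matrix n n ℝ} (h : X.PosDef) : IsUnit X.det := h.det_pos.ne'.isUnit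

lemma inv_anti {X X' : Matrix n n ℝ} (hX : X.PosDef) (hX' : X'.PosDef) {c : ℝ} (hc : 0 < c)
    (h : (c • X' - X).PosSemidef) : (c • X⁻¹ - X'⁻¹).PosSemidef := by
  have e1 := mul_nonsing_inv _ (pd_det hX)
  have e2 := nonsing_inv_mul _ (pd_det hX)
  have e3 := mul_nonsing_inv _ (pd_det hX')
  have s1 := psd_symm hX.inv.posSemidef
  have s2 := psd_symm hX'.inv.posSemidef
  have h1 := ((psd_conj hX.posSemidef (X'⁻¹ - c • X⁻¹)).add (psd_conj h X'⁻¹)).smul
    (inv_nonneg.2 hc.le)
  convert h1 using 1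
  rw [transpose_sub, transpose_smul, s1, s2]
  simp only [sub_mul, mul_sub, smul_mul_assoc, mul_smul_comm, mul_assoc, e1, e3, mul_one]
  simp only [← mul_assoc, e2, one_mul]
  match_scalars <;> field_simp <;> ring

lemma continuousAt_inv {X : Matrix n n ℝ} (h : X.det ≠ 0) :
    ContinuousAt (fun A : Matrix n n ℝ => A⁻¹) X :=
  continuousAt_matrix_inv X (by
    rw [Ring.inverse_eq_inv']
    exact continuousAt_inv₀ h)

theorem exists_riccati (L : Matrix n n ℝ) :
    ∃ Z : Matrix n n ℝ, (Z - 1).PosSemidef ∧ Z = 1 + Lᵀ * Z⁻¹ * L := by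
  obtain ⟨R, hR0, hR⟩ := exists_bound L
  set C := 1 + R with hC
  have hC1 : 1 ≤ C := by linarith
  let F : Matrix n n ℝ → Matrix n n ℝ := fun X => 1 + Lᵀ * X⁻¹ * L
  let K : Set (Matrix n n ℝ) := {X | (X - 1).PosSemidef ∧ (C • (1 : Matrix n n ℝ) - X).PosSemidef}
  have hKc : IsClosed K := (isClosed_psd.preimage (f := fun X => X - 1) (by fun_prop)).inter
    (isClosed_psd.preimage (f := fun X => C • (1 : Matrix n n ℝ) - X) (by fun_prop))
  have hK : IsCompact K := (isCompact_box C).of_isClosed_subset hKc fun X hX i j => by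
    have h1 := psd_entry (pd_of_one_le hX.1).posSemidef i j
    have h2 := hX.2.diag_nonneg (i := i)
    have h3 := hX.2.diag_nonneg (i := j)
    simp only [Matrix.sub_apply, Matrix.smul_apply, one_apply_eq, smul_eq_mul] at h2 h3
    linarith
  have step : ∀ {X X' : Matrix n n ℝ} {c : ℝ}, X.PosDef → X'.PosDef → 0 < c →
      (c • X' - X).PosSemidef → (c • (F X - 1) - (F X' - 1)).PosSemidef := by
    intro X X' c h1 h2 h3 h4
    convert psd_conj (inv_anti h1 h2 h3 h4) L using 1
    simp [F, sub_mul, mul_sub]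
  have hFK : ∀ X ∈ K, F X ∈ K := by
    intro X hX
    refine ⟨by simpa [F] using psd_conj (pd_of_one_le hX.1).inv.posSemidef L, ?_⟩
    have := step PosDef.one (pd_of_one_le hX.1) one_pos (by simpa using hX.1)
    convert this.add hR using 1
    simp only [F, inv_one, mul_one, hC]
    module
  let Φ : Matrix n n ℝ × ℝ → Matrix n n ℝ × Matrix n n ℝ :=
    fun p => (p.2 • F p.1 - p.1, p.2 • p.1 - F p.1)
  have hF : ContinuousOn (fun p : Matrix n n ℝ × ℝ => F p.1) (K ×ˢ Set.Icc 1 C) := by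
    intro p hp
    have h1 : ContinuousAt (fun p : Matrix n n ℝ × ℝ => p.1⁻¹) p :=
      (continuousAt_inv (pd_of_one_le hp.1.1).det_pos.ne').comp continuousAt_fst
    exact (continuousAt_const.add ((continuousAt_const.mul h1).mul
      continuousAt_const)).continuousWithinAt
  have hΦ : ContinuousOn Φ (K ×ˢ Set.Icc 1 C) :=
    ((continuousOn_snd.smul hF).sub continuousOn_fst).prodMk
      ((continuousOn_snd.smul continuousOn_fst).sub hF)
  have hA := hΦ.preimage_isClosed_of_isClosed (hKc.prod isClosed_Icc)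
    (isClosed_psd.prod isClosed_psd)
  have h1K : (1 : Matrix n n ℝ) ∈ K := ⟨by simpa using PosSemidef.zero, by
    have := (PosSemidef.one (n := n) (R := ℝ)).smul hR0
    convert this using 1
    rw [hC]; module⟩
  obtain ⟨⟨X, c⟩, ⟨⟨hX, hc1, hc2⟩, h3, h4⟩, hmin⟩ := ((hK.prod isCompact_Icc).of_isClosed_subset
    hA Set.inter_subset_left).exists_isMinOn ⟨(1, C), ⟨h1K, hC1, le_rfl⟩, by
      have := ((hFK 1 h1K).1.smul (zero_le_one.trans hC1)).add h1K.2
      show (C • F 1 - 1).PosSemidef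
      convert this using 1
      module, (hFK 1 h1K).2⟩ continuousOn_snd
  dsimp only at hX hc1 hc2
  have h3 : (c • F X - X).PosSemidef := h3
  have h4 : (c • X - F X).PosSemidef := h4
  have hY := hFK X hX
  have hW := hFK _ hY
  have hd0 : 0 ≤ (c - 1) / C := by apply div_nonneg <;> linarith
  have hd1 : (c - 1) / C ≤ c - 1 := div_le_self (by linarith) hC1
  have hd2 : (c - 1) / C * C = c - 1 := div_mul_cancel₀ _ (by linarith)
  set d := (c - 1) / C with hd
  have hle : c ≤ c - d := hmin (a := (F X, c - d)) ⟨⟨hY, by dsimp only; linarith,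
    by dsimp only; linarith⟩, by
      show ((c - d) • F (F X) - F X).PosSemidef
      convert (step (pd_of_one_le hY.1) (pd_of_one_le hX.1) (by linarith) h4).add
        (hW.2.smul hd0) using 1
      match_scalars <;> linarith, by
      show ((c - d) • F X - F (F X)).PosSemidef
      convert (step (pd_of_one_le hX.1) (pd_of_one_le hY.1) (by linarith) h3).add
        (hY.2.smul hd0) using 1
      match_scalars <;> linarith⟩
  have hc : c = 1 := by
    have : d = 0 := by linarith
    rw [this] at hd2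
    linarith
  rw [hc, one_smul] at h3 h4
  refine ⟨X, hX.1, ?_⟩
  open MatrixOrder in exact le_antisymm (α := Matrix n n ℝ) h3 h4

end Pool.Agent.H265Z.CV
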