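import Pool.Agent.H265Z.CV.Riccati

/-!
# Continuous triangularisation
-/

set_option autoImplicit false

namespace Pool.Agent.H265Z.CV

open Matrix

variable {n : ℕ}

/-- square real matrices -/
abbrev Mat (n : ℕ) : Type := Matrix (Fin n) (Fin n) ℝ

/-- upper triangular -/
def Up (A : Mat n) : Prop := ∀ i j, j < i → A i j = 0

/-- upper triangular with positive diagonal -/
def UpPos (A : Mat n) : Prop := Up A ∧ ∀ i, 0 < A i i

lemma Up.mul {A B : Mat n} (hA : Up A) (hB : Up B) : Up (A * B) :=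
  BlockTriangular.mul (b := id) hA hB

lemma Up.mul_diag {A B : Mat n} (hA : Up A) (hB : Up B) (i : Fin n) :
    (A * B) i i = A i i * B i i := by
  rw [mul_apply, Finset.sum_eq_single i]
  · intro j _ hj
    rcases lt_or_gt_of_ne hj with h | h
    · rw [hA i j h, zero_mul]
    · rw [hB j i h, mul_zero]
  · simp

lemma UpPos.mul {A B : Mat n} (hA : UpPos A) (hB : UpPos B) : UpPos (A * B) :=
  ⟨hA.1.mul hB.1, fun i => by rw [hA.1.mul_diag hB.1]; exact mul_pos (hA.2 i) (hB.2 i)⟩

lemma Up.det {A : Mat n} (hA : Up A) : A.det = ∏ i, A i i := det_of_isUpperTriangular hA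

lemma UpPos.det_ne {A : Mat n} (hA : UpPos A) : A.det ≠ 0 := by
  rw [hA.1.det]
  exact (Finset.prod_pos fun i _ => hA.2 i).ne'

lemma UpPos.eq_one {c : Mat n} (hc : UpPos c) (h : cᵀ * c = 1) : c = 1 := by
  have h1 : Up cᵀ := by
    letI := invertibleOfIsUnitDet c hc.det_ne.isUnit
    rw [← inv_eq_left_inv h]
    exact blockTriangular_inv_of_blockTriangular (b := id) hc.1
  ext i j
  rcases lt_trichotomy i j with hij | rfl | hij
  · rw [one_apply_ne hij.ne]; exact h1 j i hij
  · have := h1.mul_diag hc.1 i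
    rw [h, one_apply_eq, transpose_apply] at this
    rw [one_apply_eq]
    nlinarith [hc.2 i]
  · rw [one_apply_ne hij.ne']; exact hc.1 i j hij

/-- the coordinate projection -/
def Pk (k : Fin n) : Mat n := diagonal fun i => if i ≤ k then 1 else 0

/-- the leading block, completed by the identity -/
def pad (k : Fin n) (L : Mat n) : Mat n := Pk k * L * Pk k + (1 - Pk k)

lemma pad_apply (k : Fin n) (L : Mat n) (i j : Fin n) :
    pad k L i j = if i ≤ k ∧ j ≤ k then L i j else if i = j then 1 else 0 := by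
  simp only [pad, Pk, Matrix.add_apply, Matrix.sub_apply, mul_diagonal, diagonal_mul, one_apply,
    diagonal_apply]
  by_cases h3 : i = j
  · subst h3
    by_cases h1 : i ≤ k <;> simp [h1]
  · by_cases h1 : i ≤ k <;> by_cases h2 : j ≤ k <;> simp [h1, h2, h3]

/-- all leading minors are positive -/
def Good (L : Mat n) : Prop := ∀ k, (pad k L).det ≠ 0 ∧ 0 < (pad k L)⁻¹ k k

/-- the lower triangular change of basis -/
noncomputable def gm (L : Mat n) : Mat n :=
  of fun k j => (pad k L)⁻¹ k j / √((pad k L)⁻¹ k k)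

/-- the unipotent normal form -/
noncomputable def tau (L : Mat n) : Mat n := gm L * L * (gm L)ᵀ

lemma row_zero {L : Mat n} (h : Good L) {k j : Fin n} (hj : k < j) : (pad k L)⁻¹ k j = 0 := by
  have := congrFun (congrFun (nonsing_inv_mul _ (h k).1.isUnit) k) j
  simpa [mul_apply, pad_apply, hj.not_ge, one_apply_ne hj.ne] using this

lemma row_mul {L : Mat n} (h : Good L) {k j : Fin n} (hj : j ≤ k) :
    ∑ i, (pad k L)⁻¹ k i * L i j = if k = j then 1 else 0 := by
  have := congrFun (congrFun (nonsing_inv_mul _ (h k).1.isUnit) k) j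
  rw [mul_apply, one_apply] at this
  rw [← this]
  refine Finset.sum_congr rfl fun i _ => ?_
  by_cases hi : i ≤ k
  · rw [pad_apply, if_pos ⟨hi, hj⟩]
  · rw [row_zero h (not_le.1 hi), zero_mul, zero_mul]

lemma gm_mul {L : Mat n} (h : Good L) {k j : Fin n} (hj : j ≤ k) :
    (gm L * L) k j = (if k = j then 1 else 0) / √((pad k L)⁻¹ k k) := by
  rw [← row_mul h hj, mul_apply, Finset.sum_div]
  exact Finset.sum_congr rfl fun i _ => by simp only [gm, of_apply]; ring

lemma Good.upPos_gm {L : Mat n} (h : Good L) : UpPos (gm L)ᵀ :=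
  ⟨fun i j hij => by simp [gm, row_zero h hij],
    fun i => div_pos (h i).2 (Real.sqrt_pos.2 (h i).2)⟩

lemma Good.upPos_gm_mul {L : Mat n} (h : Good L) : UpPos (gm L * L) :=
  ⟨fun i j hij => by rw [gm_mul h hij.le, if_neg hij.ne', zero_div], fun i => by
    rw [gm_mul h le_rfl, if_pos rfl]
    exact div_pos one_pos (Real.sqrt_pos.2 (h i).2)⟩

lemma Good.up_tau {L : Mat n} (h : Good L) : Up (tau L) := h.upPos_gm_mul.1.mul h.upPos_gm.1

lemma Good.tau_diag {L : Mat n} (h : Good L) (i : Fin n) : tau L i i = 1 := by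
  rw [tau, h.upPos_gm_mul.1.mul_diag h.upPos_gm.1, gm_mul h le_rfl, if_pos rfl]
  simp only [gm, transpose_apply, of_apply]
  have h1 := Real.sqrt_pos.2 (h i).2
  have h2 := Real.mul_self_sqrt (h i).2.le
  field_simp
  linarith

lemma UpPos.pad {S : Mat n} (h : UpPos S) (k : Fin n) : UpPos (pad k S) := by
  refine ⟨fun i j hij => ?_, fun i => ?_⟩
  · rw [pad_apply, h.1 i j hij, if_neg hij.ne', ite_self]
  · rw [pad_apply, if_pos rfl]
    split_ifs
    exacts [h.2 i, one_pos]

lemma UpPos.row {S : Mat n} (h : UpPos S) (k j : Fin n) :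
    S k k * (CV.pad k S)⁻¹ k j = if k = j then 1 else 0 := by
  have := congrFun (congrFun (mul_nonsing_inv _ (h.pad k).det_ne.isUnit) k) j
  rw [mul_apply, one_apply, Finset.sum_eq_single k, pad_apply, if_pos ⟨le_rfl, le_rfl⟩] at this
  · exact this
  · intro i _ hi
    rcases lt_or_gt_of_ne hi with h1 | h1
    · rw [(h.pad k).1 k i h1, zero_mul]
    · rw [pad_apply, if_neg (fun h => h1.not_ge h.2), if_neg hi.symm, zero_mul]
  · simp

lemma UpPos.good {S : Mat n} (h : UpPos S) : Good S := fun k =>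
  ⟨(h.pad k).det_ne, (pos_iff_pos_of_mul_pos (by
    rw [h.row k k, if_pos rfl]; exact one_pos)).1 (h.2 k)⟩

lemma tau_unipotent {S : Mat n} (h : Up S) (h1 : ∀ i, S i i = 1) : tau S = S := by
  have hS : UpPos S := ⟨h, fun i => by rw [h1]; exact one_pos⟩
  have : gm S = 1 := by
    ext k j
    have e1 := hS.row k j
    have e2 := hS.row k k
    rw [h1, one_mul] at e1 e2
    simp [gm, e1, e2, one_apply]
  simp [tau, this]

lemma good_of_posDef {G : Mat n} (h : G.PosDef) : Good G := by
  intro k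
  have hP : (Pk k)ᵀ = Pk k := by simp [Pk]
  have h1 : (Pk k * G * Pk k).PosSemidef := by simpa [hP] using psd_conj h.posSemidef (Pk k)
  have h2 : (1 - Pk k).PosSemidef := by
    rw [Pk, ← diagonal_one, diagonal_sub]
    exact PosSemidef.diagonal fun i => by dsimp only [Pi.zero_apply]; split_ifs <;> simp
  have h3 : (pad k G).PosDef := by
    refine PosDef.of_dotProduct_mulVec_pos (h1.add h2).1 fun x hx => ?_
    by_cases h0 : Pk k *ᵥ x = 0
    · rw [pad, add_mulVec, ← mulVec_mulVec, h0, mulVec_zero, zero_add, sub_mulVec, h0, sub_zero]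
      exact PosDef.one.dotProduct_mulVec_pos hx
    · rw [pad, add_mulVec, dotProduct_add]
      refine add_pos_of_pos_of_nonneg ?_ (h2.dotProduct_mulVec_nonneg x)
      have := h.dotProduct_mulVec_pos h0
      rw [← mulVec_mulVec, ← mulVec_mulVec, dotProduct_mulVec, ← hP, vecMul_transpose, hP]
      simpa using this
  exact ⟨h3.det_pos.ne', h3.inv.diag_pos⟩

lemma continuous_pad (k : Fin n) : Continuous (pad k : Mat n → Mat n) := by
  unfold pad
  fun_prop

lemma continuousAt_row {L : Mat n} (h : Good L) (k j : Fin n) :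
    ContinuousAt (fun A : Mat n => (pad k A)⁻¹ k j) L :=
  (continuous_id.matrix_elem k j).continuousAt.comp
    ((continuousAt_inv (h k).1).comp (f := pad k) (continuous_pad k).continuousAt)

lemma Good.continuousAt_gm {L : Mat n} (h : Good L) : ContinuousAt gm L :=
  continuousAt_pi.2 fun k => continuousAt_pi.2 fun j =>
    (continuousAt_row h k j).div (continuousAt_row h k k).sqrt (Real.sqrt_pos.2 (h k).2).ne'

lemma continuousAt_transpose {X : Type} [TopologicalSpace X] {f : X → Mat n} {x : X}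
    (h : ContinuousAt f x) : ContinuousAt (fun y => (f y)ᵀ) x :=
  (continuous_id.matrix_transpose).continuousAt.comp h

lemma Good.continuousAt_tau {L : Mat n} (h : Good L) : ContinuousAt tau L :=
  (h.continuousAt_gm.mul continuousAt_id).mul (continuousAt_transpose h.continuousAt_gm)

lemma Good.eventually {L : Mat n} (h : Good L) : ∀ᶠ A in nhds L, Good A :=
  Filter.eventually_all.2 fun k =>
    (((continuous_pad k).matrix_det.continuousAt).eventually_ne (h k).1).and
      (continuousAt_const.eventually_lt (continuousAt_row h k k) (h k).2)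

lemma chol {G : Mat n} (h : G.PosDef) : gm G * G * (gm G)ᵀ = 1 := by
  have hG := good_of_posDef h
  have hs : (tau G)ᵀ = tau G := by
    simp [tau, transpose_mul, psd_symm h.posSemidef, mul_assoc]
  show tau G = 1
  ext i j
  rcases lt_trichotomy i j with hij | rfl | hij
  · rw [one_apply_ne hij.ne, ← hs]; exact hG.up_tau j i hij
  · rw [hG.tau_diag, one_apply_eq]
  · rw [one_apply_ne hij.ne']; exact hG.up_tau i j hij

lemma chol' {G : Mat n} (h : G.PosDef) : (gm G)ᵀ * gm G * G = 1 := by
  rw [mul_assoc]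
  exact mul_eq_one_comm.1 (chol h)

/-- the product of the two Cholesky factors -/
noncomputable def LG (G : Mat n) : Mat n := (gm G⁻¹)ᵀ * (gm G * G)

/-- `G` witnesses that `L` is congruent to an orthogonal matrix -/
def Wit (L G : Mat n) : Prop := G.PosDef ∧ Lᵀ * G⁻¹ * L = G

lemma upPos_LG {G : Mat n} (h : G.PosDef) : UpPos (LG G) :=
  (good_of_posDef h.inv).upPos_gm.mul (good_of_posDef h).upPos_gm_mul

lemma wit_LG {G : Mat n} (h : G.PosDef) : Wit (LG G) G := by
  refine ⟨h, ?_⟩
  calc _ = G * (gm G)ᵀ * (gm G⁻¹ * G⁻¹ * (gm G⁻¹)ᵀ) * (gm G * G) := by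
        simp only [LG, transpose_mul, transpose_transpose, psd_symm h.posSemidef, mul_assoc]
    _ = G * ((gm G)ᵀ * gm G * G) := by rw [chol h.inv]; simp only [mul_assoc, one_mul]
    _ = G := by rw [chol' h, mul_one]

lemma Wit.congr {L G g : Mat n} (h : Wit L G) (hg : g.det ≠ 0) :
    Wit (g * L * gᵀ) (g * G * gᵀ) := by
  have hu : IsUnit g := (isUnit_iff_isUnit_det g).2 hg.isUnit
  refine ⟨by simpa using h.1.mul_mul_conjTranspose_same (vecMul_injective_of_isUnit hu), ?_⟩
  have e1 := nonsing_inv_mul _ hg.isUnit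
  have e2 : gᵀ * gᵀ⁻¹ = 1 := mul_nonsing_inv _ (by simpa using hg)
  calc _ = g * Lᵀ * (gᵀ * gᵀ⁻¹) * G⁻¹ * (g⁻¹ * g) * L * gᵀ := by
        simp only [transpose_mul, transpose_transpose, Matrix.mul_inv_rev, mul_assoc]
    _ = g * (Lᵀ * G⁻¹ * L) * gᵀ := by rw [e1, e2]; simp only [mul_assoc, one_mul, mul_one]
    _ = _ := by rw [h.2]

lemma Wit.LG_eq {S G : Mat n} (h : Wit S G) (hS : UpPos S) : LG G = S := by
  have hs := psd_symm h.1.inv.posSemidef
  have e0 : G⁻¹⁻¹ = G := nonsing_inv_nonsing_inv _ (pd_det h.1)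
  have e1 : gm G⁻¹ * G⁻¹ * S * (gm G)ᵀ = 1 := by
    refine (((good_of_posDef h.1.inv).upPos_gm_mul.mul hS).mul
      (good_of_posDef h.1).upPos_gm).eq_one ?_
    calc _ = gm G * (Sᵀ * G⁻¹ * ((gm G⁻¹)ᵀ * gm G⁻¹ * G⁻¹) * S) * (gm G)ᵀ := by
          simp only [transpose_mul, transpose_transpose, hs, mul_assoc]
      _ = 1 := by rw [chol' h.1.inv, mul_one, h.2, chol h.1]
  calc LG G = (gm G⁻¹)ᵀ * (gm G⁻¹ * G⁻¹ * S * (gm G)ᵀ) * (gm G * G) := by rw [e1, mul_one, LG]
    _ = ((gm G⁻¹)ᵀ * gm G⁻¹ * G⁻¹) * S * ((gm G)ᵀ * gm G * G) := by simp only [mul_assoc]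
    _ = S := by rw [chol' h.1.inv, chol' h.1, one_mul, mul_one]

/-- the parametrisation by the cone of positive definite matrices -/
noncomputable def sig (G : Mat n) : Mat n := tau (LG G)

lemma continuousAt_sig {G : Mat n} (h : G.PosDef) : ContinuousAt sig G := by
  have h1 : ContinuousAt LG G :=
    (continuousAt_transpose ((good_of_posDef h.inv).continuousAt_gm.comp (f := fun A => A⁻¹)
      (continuousAt_inv h.det_pos.ne'))).mul ((good_of_posDef h).continuousAt_gm.mul
        continuousAt_id)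
  exact (upPos_LG h).good.continuousAt_tau.comp (f := LG) h1

lemma Wit.tau {L G : Mat n} (h : Wit L G) (hL : Good L) :
    Wit (tau L) (gm L * G * (gm L)ᵀ) :=
  h.congr (by simpa using hL.upPos_gm.det_ne)

lemma Wit.tau_mem {L G : Mat n} (h : Wit L G) (hL : Good L) :
    CV.tau L ∈ sig '' {G : Mat n | G.PosDef} := by
  refine ⟨_, (h.tau hL).1, ?_⟩
  rw [sig, (h.tau hL).LG_eq ⟨hL.up_tau, fun i => by rw [hL.tau_diag]; exact one_pos⟩,
    tau_unipotent hL.up_tau hL.tau_diag]

lemma isPreconnected_sig : IsPreconnected (sig '' {G : Mat n | G.PosDef}) := by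
  refine IsPreconnected.image (Convex.isPreconnected ?_) _
    fun G hG => (continuousAt_sig hG).continuousWithinAt
  intro A hA B hB a b ha hb hab
  rcases ha.eq_or_lt with rfl | ha
  · obtain rfl : b = 1 := by linarith
    simpa using hB
  · exact (PosDef.smul hA ha).add_posSemidef (hB.posSemidef.smul hb)

end Pool.Agent.H265Z.CV
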